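import Pool.Agent.Lib.MP_fc9dee_ag.Defs

/-! `HP^{DR}_0` surjects onto `A / {A, A}`. -/

open CategoryTheory
open scoped TensorProduct

noncomputable section

namespace Pool.Agent.Lib.MP_fc9dee_ag

section

variable {S : Type} [Ring S] {W : ModuleCat.{0} ℂ} (ρ : S →+* Module.End ℂ W)

theorem push_map_surjective {M N : ModuleCat.{0} Sᵐᵒᵖ} (u : M ⟶ N)
    (hu : Function.Surjective u.hom) : Function.Surjective ((push ρ).map u).hom := by
  intro z
  obtain ⟨z, rfl⟩ := Submodule.Quotient.mk_surjective (pushRel ρ N) z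
  induction z using tens_induction with
  | h0 => exact ⟨0, map_zero _⟩
  | ht f x =>
    obtain ⟨y, rfl⟩ := hu x
    exact ⟨Submodule.Quotient.mk (p := pushRel ρ M) (tm f y), rfl⟩
  | ha y z hy hz =>
    obtain ⟨a, ha⟩ := hy
    obtain ⟨b, hb⟩ := hz
    refine ⟨a + b, ?_⟩
    rw [map_add, ha, hb]
    rfl

theorem rank_push_le (M : ModuleCat.{0} Sᵐᵒᵖ) :
    Module.rank ℂ ((push ρ).obj M) ≤
      Module.rank ℂ (haveI := push_additive ρ; ((push ρ).leftDerived 0).obj M) := by
  have := push_additive ρ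
  let P := projectiveResolution M
  have h1 : Epi ((push ρ).map (P.π.f 0)) := by
    rw [ModuleCat.epi_iff_surjective]
    apply push_map_surjective
    have : Epi (P.π.f 0) := inferInstance
    exact (ModuleCat.epi_iff_surjective _).1 this
  have h2 : Epi (P.fromLeftDerivedZero' (push ρ)) := by
    rw [← P.pOpcycles_comp_fromLeftDerivedZero' (push ρ)] at h1
    exact @epi_of_epi _ _ _ _ _ _ _ h1
  have h3 : Epi ((push ρ).fromLeftDerivedZero.app M) := by
    rw [P.fromLeftDerivedZero_eq (push ρ)]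
    infer_instance
  exact LinearMap.rank_le_of_surjective _ ((ModuleCat.epi_iff_surjective _).1 h3)

variable {U : Type} [AddCommGroup U] [Module ℂ U] (l : W →ₗ[ℂ] U) (s : Set S)
  (hs : ∀ Q ∈ s, ∀ f, l (ρ Q f) = 0)

include hs in
theorem span_kill (Q : S) (hQ : Q ∈ Submodule.span Sᵐᵒᵖ s) (f : W) : l (ρ Q f) = 0 := by
  induction hQ using Submodule.span_induction generalizing f with
  | mem Q hQ => exact hs Q hQ f
  | zero => simp
  | add x y _ _ hx hy => rw [map_add, LinearMap.add_apply, map_add, hx, hy, add_zero]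
  | smul a x _ hx =>
    have : a • x = x * a.unop := rfl
    rw [this, map_mul]
    exact hx _

/-- The additive map `S / J → U`, `Q ↦ l (Q f)`. -/
def evAt (f : W) : (S ⧸ Submodule.span Sᵐᵒᵖ s) →+ U :=
  QuotientAddGroup.lift (Submodule.span Sᵐᵒᵖ s).toAddSubgroup
    { toFun := fun Q : S => l (ρ Q f)
      map_zero' := by simp
      map_add' := fun x y => by simp }
    (fun Q hQ => span_kill ρ l s hs Q hQ f)

theorem evAt_mk (f : W) (Q : S) : evAt ρ l s hs f (Submodule.Quotient.mk Q) = l (ρ Q f) := rfl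

/-- The bilinear form of `evAt`. -/
def evBil : W →ₗ[ℂ] (S ⧸ Submodule.span Sᵐᵒᵖ s) →ₗ[ℤ] U where
  toFun f := (evAt ρ l s hs f).toIntLinearMap
  map_add' f g := by
    refine LinearMap.ext fun x => ?_
    obtain ⟨Q, rfl⟩ := Submodule.Quotient.mk_surjective _ x
    change l (ρ Q (f + g)) = l (ρ Q f) + l (ρ Q g)
    rw [map_add, map_add]
  map_smul' c f := by
    refine LinearMap.ext fun x => ?_
    obtain ⟨Q, rfl⟩ := Submodule.Quotient.mk_surjective _ x
    change l (ρ Q (c • f)) = c • l (ρ Q f)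
    rw [map_smul, map_smul]

include hs in
theorem rank_le_derivedQuot (hl : Function.Surjective l) :
    Module.rank ℂ U ≤ Module.rank ℂ (derivedQuot ρ s 0) := by
  let M : ModuleCat.{0} Sᵐᵒᵖ := ModuleCat.of Sᵐᵒᵖ (S ⧸ Submodule.span Sᵐᵒᵖ s)
  refine le_trans ?_ (rank_push_le ρ M)
  let L : tens W M →ₗ[ℂ] U := TensorProduct.AlgebraTensorModule.lift (evBil ρ l s hs)
  have hL : ∀ (f : W) (Q : S),
      L (tm (M := M) f (Submodule.Quotient.mk Q)) = l (ρ Q f) := fun _ _ => rfl
  have hker : pushRel ρ M ≤ LinearMap.ker L := by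
    rw [pushRel, Submodule.span_le]
    rintro z ⟨Q, f, x, rfl⟩
    obtain ⟨Q', rfl⟩ := Submodule.Quotient.mk_surjective (Submodule.span Sᵐᵒᵖ s) x
    change L _ = 0
    have h1 : L (tm (M := M) f (MulOpposite.op Q • Submodule.Quotient.mk Q')) =
        l (ρ (Q' * Q) f) := hL f (Q' * Q)
    rw [map_sub, hL, h1, map_mul]
    exact sub_self _
  refine LinearMap.rank_le_of_surjective ((pushRel ρ M).liftQ L hker) ?_
  intro w
  obtain ⟨f, rfl⟩ := hl w
  refine ⟨Submodule.Quotient.mk (tm (M := M) f (Submodule.Quotient.mk 1)), ?_⟩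
  refine ((Submodule.liftQ_apply _ L (h := hker) _).trans (hL f 1)).trans ?_
  rw [map_one]
  rfl

end

variable {R : Type} [CommRing R] [Algebra ℂ R] {A : Type} [CommRing A] [Algebra ℂ A]

theorem rank_HP0_le (P : Poisson A) (π : R →ₐ[ℂ] A) (hπ : Function.Surjective π) :
    Module.rank ℂ (HP0 P) ≤ Module.rank ℂ (HPDR P π 0) := by
  let T : Submodule ℂ A := Submodule.span ℂ {x : A | ∃ a b, x = P.br a b}
  refine rank_le_derivedQuot (W := ModuleCat.of ℂ R) (Diff R).subtype
    (T.mkQ.comp π.toLinearMap) _ ?_ (T.mkQ_surjective.comp hπ)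
  rintro Q (⟨g, hg, h⟩ | ⟨ξ, a, hξ, h⟩) f
  · rw [h]
    change T.mkQ (π (g * f)) = 0
    rw [map_mul, hg, zero_mul, map_zero]
  · rw [h]
    change T.mkQ (π (ξ f)) = 0
    rw [Submodule.mkQ_apply, Submodule.Quotient.mk_eq_zero]
    exact Submodule.subset_span ⟨a, π f, hξ f⟩

end Pool.Agent.Lib.MP_fc9dee_ag
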