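import Mathlib

/-!
Definitions for Poisson-de Rham homology of an affine Poisson variety over the complex numbers,
symplectic resolutions by an affine variety, and singular cohomology of the complex points.
-/

open CategoryTheory AlgebraicGeometry
open scoped TensorProduct

noncomputable section

namespace Pool.Agent.Lib.MP_fc9dee_ag

/-- A Poisson bracket on a commutative complex algebra. -/
structure Poisson (A : Type) [CommRing A] [Algebra ℂ A] where
  br : A →ₗ[ℂ] A →ₗ[ℂ] A
  alt : ∀ a, br a a = 0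
  leibniz : ∀ a b c, br a (b * c) = b * br a c + c * br a b
  jacobi : ∀ a b c, br a (br b c) + br b (br c a) + br c (br a b) = 0

/-- `Spec A` is an irreducible affine variety: `A` is a finitely generated domain. -/
def IsAffineVariety (A : Type) [CommRing A] [Algebra ℂ A] : Prop :=
  Algebra.FiniteType ℂ A ∧ IsDomain A

section

variable {A B : Type} [CommRing A] [Algebra ℂ A] [CommRing B] [Algebra ℂ B]

/-- `Spec B` is a smooth symplectic variety: the bracket is nondegenerate, i.e. `df ↦ {f, -}`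
is an isomorphism from Kaehler differentials to vector fields. -/
def IsSymplectic (P : Poisson B) : Prop :=
  IsAffineVariety B ∧ Algebra.Smooth ℂ B ∧
    ∃ e : Ω[B⁄ℂ] ≃ₗ[B] Derivation ℂ B B, ∀ f g, e (KaehlerDifferential.D ℂ B f) g = P.br f g

/-- The morphism of schemes `Spec B ⟶ Spec A` given by `φ`. -/
abbrev specMap (φ : A →ₐ[ℂ] B) : Spec (CommRingCat.of B) ⟶ Spec (CommRingCat.of A) :=
  Spec.map (CommRingCat.ofHom (φ : A →+* B))

/-- `Spec B ⟶ Spec A` is a symplectic resolution of the irreducible affine Poisson variety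
`Spec A`: the source is smooth symplectic and the map is proper, birational (an isomorphism over
a dense open set with dense preimage) and Poisson. -/
def IsSymplecticResolution (PA : Poisson A) (PB : Poisson B) (φ : A →ₐ[ℂ] B) : Prop :=
  IsAffineVariety A ∧ IsSymplectic PB ∧ IsProper (specMap φ) ∧
    (∃ U : (Spec (CommRingCat.of A)).Opens, Dense (U : Set (Spec (CommRingCat.of A))) ∧
      Dense ((specMap φ ⁻¹ᵁ U : (Spec (CommRingCat.of B)).Opens) :
        Set (Spec (CommRingCat.of B))) ∧ IsIso (specMap φ ∣_ U)) ∧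
    ∀ a b, φ (PA.br a b) = PB.br (φ a) (φ b)

/-- `HP₀ = A / {A, A}`. -/
def HP0 (P : Poisson A) : ModuleCat.{0} ℂ :=
  ModuleCat.of ℂ (A ⧸ Submodule.span ℂ {x : A | ∃ a b, x = P.br a b})

end

section

variable {S : Type} [Ring S] {W : ModuleCat.{0} ℂ} (ρ : S →+* Module.End ℂ W)

/-- `W ⊗_ℤ M` as a complex vector space. -/
def tens (W : ModuleCat.{0} ℂ) (M : ModuleCat.{0} Sᵐᵒᵖ) : ModuleCat.{0} ℂ :=
  ModuleCat.of ℂ (W ⊗[ℤ] M)

/-- The pure tensor `f ⊗ x`. -/
def tm {M : ModuleCat.{0} Sᵐᵒᵖ} (f : W) (x : M) : tens W M := f ⊗ₜ[ℤ] x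

/-- The relations of the tensor product `M ⊗_S W` of a right `S`-module `M` with the left
`S`-module `W` (action `ρ`). -/
def pushRel (M : ModuleCat.{0} Sᵐᵒᵖ) : Submodule ℂ (tens W M) :=
  Submodule.span ℂ {z | ∃ (Q : S) (f : W) (x : M),
    z = tm (ρ Q f) x - tm f (MulOpposite.op Q • x)}

/-- The map induced on `W ⊗_ℤ M` by a map of right `S`-modules. -/
def pushTensor (W : ModuleCat.{0} ℂ) {M N : ModuleCat.{0} Sᵐᵒᵖ} (u : M ⟶ N) :
    tens W M →ₗ[ℂ] tens W N :=
  TensorProduct.AlgebraTensorModule.lTensor ℂ W u.hom.toAddMonoidHom.toIntLinearMap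

theorem pushTensor_tm {M N : ModuleCat.{0} Sᵐᵒᵖ} (u : M ⟶ N) (f : W)
    (x : M) : pushTensor W u (tm f x) = tm f (u.hom x) := rfl

theorem pushRel_le {M N : ModuleCat.{0} Sᵐᵒᵖ} (u : M ⟶ N) :
    pushRel ρ M ≤ (pushRel ρ N).comap (pushTensor W u) := by
  rw [pushRel, Submodule.span_le]
  rintro z ⟨Q, f, x, rfl⟩
  refine Submodule.subset_span ⟨Q, f, u.hom x, ?_⟩
  rw [map_sub, pushTensor_tm, pushTensor_tm, map_smul]

/-- The tensor product `M ⊗_S W`. -/
def pushObj (M : ModuleCat.{0} Sᵐᵒᵖ) : ModuleCat.{0} ℂ :=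
  ModuleCat.of ℂ (tens W M ⧸ pushRel ρ M)

/-- The map induced on `M ⊗_S W` by a map of right `S`-modules. -/
def pushMap {M N : ModuleCat.{0} Sᵐᵒᵖ} (u : M ⟶ N) : pushObj ρ M ⟶ pushObj ρ N :=
  ModuleCat.ofHom (Submodule.mapQ (pushRel ρ M) (pushRel ρ N) (pushTensor W u) (pushRel_le ρ u))

theorem tens_induction {M : ModuleCat.{0} Sᵐᵒᵖ} {p : tens W M → Prop} (z : tens W M) (h0 : p 0)
    (ht : ∀ f x, p (tm f x)) (ha : ∀ y z, p y → p z → p (y + z)) : p z :=
  TensorProduct.induction_on (R := ℤ) (M := W) (N := M) z h0 ht ha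

theorem push_ext {M : ModuleCat.{0} Sᵐᵒᵖ} {V : ModuleCat.{0} ℂ} {a b : pushObj ρ M ⟶ V}
    (h : ∀ (f : W) (x : M), a.hom (Submodule.Quotient.mk (p := pushRel ρ M) (tm f x)) =
      b.hom (Submodule.Quotient.mk (p := pushRel ρ M) (tm f x))) : a = b := by
  refine ModuleCat.hom_ext (LinearMap.ext fun z => ?_)
  obtain ⟨z, rfl⟩ := Submodule.Quotient.mk_surjective (pushRel ρ M) z
  induction z using tens_induction with
  | h0 => exact (map_zero a.hom).trans (map_zero b.hom).symm
  | ht f x => exact h f x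
  | ha y z hy hz =>
    exact ((map_add a.hom _ _).trans (congrArg₂ (· + ·) hy hz)).trans (map_add b.hom _ _).symm

theorem pushMap_id (M : ModuleCat.{0} Sᵐᵒᵖ) : pushMap ρ (𝟙 M) = 𝟙 (pushObj ρ M) :=
  push_ext ρ fun _ _ => rfl

theorem pushMap_comp {L M N : ModuleCat.{0} Sᵐᵒᵖ} (u : L ⟶ M) (v : M ⟶ N) :
    pushMap ρ (u ≫ v) = pushMap ρ u ≫ pushMap ρ v :=
  push_ext ρ fun _ _ => rfl

/-- The functor `M ↦ M ⊗_S W` from right `S`-modules to vector spaces. -/
def push : ModuleCat.{0} Sᵐᵒᵖ ⥤ ModuleCat.{0} ℂ where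
  obj := pushObj ρ
  map := pushMap ρ
  map_id := pushMap_id ρ
  map_comp := pushMap_comp ρ

theorem push_additive : (push ρ).Additive where
  map_add {_ N u v} := push_ext ρ fun f x =>
    congrArg (Submodule.Quotient.mk (p := pushRel ρ N))
      (TensorProduct.tmul_add (R := ℤ) f (u.hom x) (v.hom x))

/-- The `i`-th left derived functor of `M ↦ M ⊗_S W`, evaluated at the quotient of `S` by the
right ideal generated by a set `s`. -/
def derivedQuot (s : Set S) (i : ℕ) : ModuleCat.{0} ℂ :=
  haveI := push_additive ρ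
  ((push ρ).leftDerived i).obj (ModuleCat.of Sᵐᵒᵖ (S ⧸ Submodule.span Sᵐᵒᵖ s))

end

section

variable (R : Type) [CommRing R] [Algebra ℂ R]

/-- Multiplication by a function. -/
def mulOp (f : R) : Module.End ℂ R := LinearMap.mul ℂ R f

/-- A vector field as an operator on functions. -/
def derOp (ξ : Derivation ℂ R R) : Module.End ℂ R := ξ.toLinearMap

/-- The ring `D(V)` of algebraic differential operators on a smooth affine variety `V = Spec R`:
the ring of endomorphisms of `R` generated by multiplications and vector fields. -/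
def Diff : Subring (Module.End ℂ R) :=
  Subring.closure (Set.range (mulOp R) ∪ Set.range (derOp R))

variable {R} {A : Type} [CommRing A] [Algebra ℂ A]

/-- For the closed embedding `Spec A ⊆ V = Spec R` given by `π : R → A`: the functions vanishing
on `Spec A` and the vector fields on `V` that are tangent to `Spec A` and restrict to Hamiltonian
vector fields. -/
def hamGens (P : Poisson A) (π : R →ₐ[ℂ] A) : Set (Module.End ℂ R) :=
  {Q | (∃ f : R, π f = 0 ∧ Q = mulOp R f) ∨
    (∃ (ξ : Derivation ℂ R R) (a : A), (∀ g, π (ξ g) = P.br a (π g)) ∧ Q = derOp R ξ)}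

/-- Poisson-de Rham homology: the `i`-th left derived functor of the pushforward to a point,
`M ↦ M ⊗_{D(V)} O(V)`, applied to `M(X, i) = D(V) / J`, with `J` the right ideal generated by
`hamGens`. -/
def HPDR (P : Poisson A) (π : R →ₐ[ℂ] A) (i : ℕ) : ModuleCat.{0} ℂ :=
  derivedQuot (W := ModuleCat.of ℂ R) (Diff R).subtype ((Diff R).subtype ⁻¹' hamGens P π) i

end

/-- The complex points of `Spec B` with the classical topology (the coarsest one making all
regular functions continuous). -/
def points (B : Type) [CommRing B] [Algebra ℂ B] : TopCat.{0} :=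
  @TopCat.of (B →ₐ[ℂ] ℂ) (TopologicalSpace.induced (fun χ : B →ₐ[ℂ] ℂ => (χ : B → ℂ))
    inferInstance)

/-- Singular cohomology with complex coefficients: cohomology of the dual of the singular chain
complex. -/
def singularCohomology (Y : TopCat.{0}) (k : ℕ) : ModuleCat.{0} ℂ :=
  ((((AlgebraicTopology.singularChainComplexFunctor (ModuleCat.{0} ℂ)).obj
    (ModuleCat.of ℂ ℂ)).obj Y).linearYonedaObj ℂ (ModuleCat.of ℂ ℂ)).homology k

end Pool.Agent.Lib.MP_fc9dee_ag
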