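import Pool.Agent.Lib.MP_fc9dee_ag.Sympl

/-! The Poisson subalgebra `ℂ + 𝔪^k` of the functions on `ℂ^{2n}`. -/

open MvPolynomial CategoryTheory AlgebraicGeometry

noncomputable section

namespace Pool.Agent.Lib.MP_fc9dee_ag

variable {n : ℕ}

/-- The maximal ideal of the origin. -/
abbrev mx (n : ℕ) : Ideal (Bn n) := idealOfVars (Fin n ⊕ Fin n) ℂ

/-- The subalgebra `ℂ + 𝔪^k`. -/
def pinch (n k : ℕ) : Subalgebra ℂ (Bn n) where
  carrier := {b | ∃ c : ℂ, b - C c ∈ mx n ^ k}
  mul_mem' := by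
    rintro a b ⟨c, hc⟩ ⟨d, hd⟩
    refine ⟨c * d, ?_⟩
    have : a * b - C (c * d) = a * (b - C d) + C d * (a - C c) := by rw [map_mul]; ring
    rw [this]
    exact add_mem (Ideal.mul_mem_left _ _ hd) (Ideal.mul_mem_left _ _ hc)
  add_mem' := by
    rintro a b ⟨c, hc⟩ ⟨d, hd⟩
    refine ⟨c + d, ?_⟩
    have : a + b - C (c + d) = (a - C c) + (b - C d) := by rw [map_add]; ring
    rw [this]
    exact add_mem hc hd
  algebraMap_mem' c := ⟨c, by simp⟩

theorem mem_pinch_of_mem {k : ℕ} {b : Bn n} (h : b ∈ mx n ^ k) : b ∈ pinch n k :=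
  ⟨0, by simpa using h⟩

theorem der_mem_pow (D : Derivation ℂ (Bn n) (Bn n)) (I : Ideal (Bn n)) (j : ℕ) (f : Bn n)
    (hf : f ∈ I ^ (j + 1)) : D f ∈ I ^ j := by
  induction j generalizing f with
  | zero => simp
  | succ j ih =>
    rw [pow_succ] at hf
    refine Submodule.mul_induction_on hf (fun a ha b hb => ?_) (fun x y hx hy => ?_)
    · rw [Derivation.leibniz, smul_eq_mul, smul_eq_mul]
      refine add_mem (Ideal.mul_mem_right _ _ ha) ?_
      rw [pow_succ, mul_comm b]
      exact Ideal.mul_mem_mul (ih a ha) hb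
    · rw [map_add]; exact add_mem hx hy

theorem pderiv_mem {j : ℕ} {f : Bn n} (hf : f ∈ pinch n (j + 1)) (a : Fin n ⊕ Fin n) :
    pderiv a f ∈ mx n ^ j := by
  obtain ⟨c, hc⟩ := hf
  simpa using der_mem_pow (pderiv a) _ j _ hc

theorem hamDer_mem {j : ℕ} {f g : Bn n} (hf : f ∈ pinch n (j + 1)) (hg : g ∈ pinch n (j + 1)) :
    hamDer f g ∈ mx n ^ (j + j) := by
  rw [hamDer_apply, pow_add]
  exact Submodule.sum_mem _ fun i _ => sub_mem
    (Ideal.mul_mem_mul (pderiv_mem hf _) (pderiv_mem hg _))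
    (Ideal.mul_mem_mul (pderiv_mem hf _) (pderiv_mem hg _))

theorem hamDer_mem_pinch {j : ℕ} (hj : 1 ≤ j) (f g : pinch n (j + 1)) :
    hamDer (f : Bn n) (g : Bn n) ∈ pinch n (j + 1) :=
  mem_pinch_of_mem (Ideal.pow_le_pow_right (by omega) (hamDer_mem f.2 g.2))

/-- The restricted Poisson bracket. -/
def pinchPoisson (n : ℕ) {j : ℕ} (hj : 1 ≤ j) : Poisson (pinch n (j + 1)) where
  br := LinearMap.mk₂ ℂ (fun f g => ⟨stdBr (f : Bn n) (g : Bn n), hamDer_mem_pinch hj f g⟩)
    (fun f f' g => Subtype.ext (by simp))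
    (fun c f g => Subtype.ext (by simp))
    (fun f g g' => Subtype.ext (by simp))
    (fun c f g => Subtype.ext (by simp))
  alt f := Subtype.ext ((stdPoisson n).alt f)
  leibniz a b c := Subtype.ext ((stdPoisson n).leibniz a b c)
  jacobi a b c := Subtype.ext ((stdPoisson n).jacobi a b c)

theorem sub_const_mem (b : Bn n) : b - C (constantCoeff b) ∈ mx n := by
  rw [← pow_one (mx n), mem_pow_idealOfVars_iff']
  intro x hx
  have : x = 0 := by
    rw [Nat.lt_one_iff, Finsupp.degree_eq_zero_iff] at hx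
    exact hx
  subst this
  simp [constantCoeff_eq]

theorem finite_pinch (k : ℕ) (hk : k ≠ 0) : Module.Finite (pinch n k) (Bn n) := by
  have h1 : Algebra.IsIntegral (pinch n k) (Bn n) := ⟨fun b => by
    have h2 : IsIntegral (pinch n k) (b - C (constantCoeff b)) := by
      refine IsIntegral.of_pow (Nat.pos_of_ne_zero hk) ?_
      exact isIntegral_algebraMap (R := pinch n k) (A := Bn n)
        (x := ⟨_, mem_pinch_of_mem (Ideal.pow_mem_pow (sub_const_mem b) k)⟩)
    have h3 : IsIntegral (pinch n k) (C (constantCoeff b) : Bn n) :=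
      isIntegral_algebraMap (R := pinch n k) (A := Bn n)
        (x := ⟨_, (pinch n k).algebraMap_mem (constantCoeff b)⟩)
    simpa using h2.add h3⟩
  have h2 : Algebra.FiniteType (pinch n k) (Bn n) :=
    Algebra.FiniteType.of_restrictScalars_finiteType ℂ _ _
  exact Algebra.IsIntegral.finite

theorem finiteType_pinch (k : ℕ) (hk : k ≠ 0) : Algebra.FiniteType ℂ (pinch n k) :=
  ⟨fg_of_fg_of_fg ℂ (pinch n k) (Bn n) Algebra.FiniteType.out (finite_pinch k hk).fg_top
    Subtype.val_injective⟩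

theorem X_mem (a : Fin n ⊕ Fin n) : (X a : Bn n) ∈ mx n := Ideal.subset_span ⟨a, rfl⟩

theorem dense_basicOpen {A : Type} [CommRing A] [IsDomain A] (r : A) (hr : r ≠ 0) :
    Dense (PrimeSpectrum.basicOpen r : Set (PrimeSpectrum A)) :=
  (PrimeSpectrum.basicOpen r).isOpen.dense ⟨⊥, by simpa using hr⟩

theorem isIso_restrict {R S : Type} [CommRing R] [CommRing S] (f : R →+* S) (r : R)
    (hb : Function.Bijective (Localization.awayMap f r)) :
    IsIso (Spec.map (CommRingCat.ofHom f) ∣_ (PrimeSpectrum.basicOpen r)) := by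
  have hi : IsIso (CommRingCat.ofHom (Localization.awayMap f r)) :=
    (RingEquiv.ofBijective _ hb).toCommRingCatIso.isIso_hom
  exact ((MorphismProperty.isomorphisms Scheme).arrow_mk_iso_iff
    (SpecMapRestrictBasicOpenIso (CommRingCat.ofHom f) r)).2
    (inferInstanceAs (IsIso (Spec.map (CommRingCat.ofHom (Localization.awayMap f r)))))

theorem pinch_resolution (hn : 1 ≤ n) {j : ℕ} (hj : 1 ≤ j) :
    IsSymplecticResolution (pinchPoisson n hj) (stdPoisson n) (pinch n (j + 1)).val := by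
  refine ⟨⟨finiteType_pinch _ (by omega), inferInstance⟩, stdPoisson_isSymplectic, ?_, ?_,
    fun a b => rfl⟩
  · have : IsFinite (specMap (pinch n (j + 1)).val) := by
      rw [IsFinite.SpecMap_iff]
      exact finite_pinch (n := n) (j + 1) (by omega)
    infer_instance
  · let x : Bn n := X (Sum.inl ⟨0, hn⟩)
    have hx : x ^ (j + 1) ∈ mx n ^ (j + 1) := Ideal.pow_mem_pow (X_mem _) _
    let r : pinch n (j + 1) := ⟨x ^ (j + 1), mem_pinch_of_mem hx⟩
    have hx0 : x ^ (j + 1) ≠ 0 := pow_ne_zero _ (X_ne_zero _)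
    have hr : r ≠ 0 := fun h => hx0 (congrArg Subtype.val h)
    refine ⟨PrimeSpectrum.basicOpen r, dense_basicOpen r hr, dense_basicOpen (x ^ (j + 1)) hx0, ?_⟩
    have hb : Function.Bijective
        (Localization.awayMap ((pinch n (j + 1)).val : pinch n (j + 1) →+* Bn n) r) := by
      constructor
      · rw [Localization.awayMap_injective_iff]
        intro a ha
        exact ⟨0, by rw [pow_zero, one_mul]; exact Subtype.ext ha⟩
      · rw [Localization.awayMap_surjective_iff]
        intro a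
        exact ⟨⟨x ^ (j + 1) * a, mem_pinch_of_mem (Ideal.mul_mem_right _ _ hx)⟩, 1, by
          rw [pow_one]; rfl⟩
    exact isIso_restrict _ r hb

theorem le_rank_HP0 (hn : 1 ≤ n) (N : ℕ) :
    (N : Cardinal) ≤ Module.rank ℂ (HP0 (pinchPoisson n (j := N + 1) (by omega))) := by
  classical
  let a : Fin n ⊕ Fin n := Sum.inl ⟨0, hn⟩
  let L : pinch n (N + 1 + 1) →ₗ[ℂ] (Fin N → ℂ) :=
    LinearMap.pi fun t => (lcoeff ℂ (Finsupp.single a (N + 2 + t))).comp
      (pinch n (N + 1 + 1)).val.toLinearMap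
  have hL : ∀ (b : pinch n (N + 1 + 1)) (t : Fin N),
      L b t = coeff (Finsupp.single a (N + 2 + t)) (b : Bn n) := fun _ _ => rfl
  have hker : Submodule.span ℂ {x : pinch n (N + 1 + 1) |
      ∃ f g, x = (pinchPoisson n (j := N + 1) (by omega)).br f g} ≤ LinearMap.ker L := by
    rw [Submodule.span_le]
    rintro z ⟨f, g, rfl⟩
    refine funext fun t => ?_
    have h := (mem_pow_idealOfVars_iff' _ _).1 (hamDer_mem f.2 g.2)
      (Finsupp.single a (N + 2 + t)) (by have := t.2; simp; omega)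
    exact h
  have hs : Function.Surjective (Submodule.liftQ _ L hker) := by
    intro v
    have hm : (∑ s : Fin N, monomial (Finsupp.single a (N + 2 + s)) (v s) : Bn n) ∈
        mx n ^ (N + 1 + 1) := by
      refine Submodule.sum_mem _ fun s _ => ?_
      rw [mem_pow_idealOfVars_iff']
      intro x hx
      rw [coeff_monomial, if_neg]
      rintro rfl
      simp at hx
      omega
    refine ⟨Submodule.Quotient.mk ⟨_, mem_pinch_of_mem hm⟩, funext fun t => ?_⟩
    rw [Submodule.liftQ_apply, hL]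
    simp only [coeff_sum, coeff_monomial]
    rw [Finset.sum_eq_single t]
    · simp
    · intro s _ hs
      rw [if_neg]
      intro h
      have := congrArg (fun u => u a) h
      simp at this
      exact hs (Fin.ext this)
    · simp
  have hr := LinearMap.rank_le_of_surjective _ hs
  rw [rank_fin_fun] at hr
  exact hr

end Pool.Agent.Lib.MP_fc9dee_ag
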