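import Pool.Agent.Lib.MP_fc9dee_ag.Defs

/-! The standard symplectic structure on affine space of even dimension. -/

open MvPolynomial

noncomputable section

namespace Pool.Agent.Lib.MP_fc9dee_ag

/-- Functions on `ℂ^{2n}`. -/
abbrev Bn (n : ℕ) : Type := MvPolynomial (Fin n ⊕ Fin n) ℂ

variable {n : ℕ}

/-- The Hamiltonian vector field of `f`. -/
def hamDer (f : Bn n) : Derivation ℂ (Bn n) (Bn n) :=
  ∑ i : Fin n, (pderiv (Sum.inl i) f • pderiv (Sum.inr i) - pderiv (Sum.inr i) f • pderiv (Sum.inl i))

theorem der_sum_apply {ι : Type} (s : Finset ι) (D : ι → Derivation ℂ (Bn n) (Bn n)) (g : Bn n) :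
    (∑ i ∈ s, D i) g = ∑ i ∈ s, D i g := by
  classical
  induction s using Finset.induction_on with
  | empty => simp
  | insert a s ha ih => rw [Finset.sum_insert ha, Finset.sum_insert ha, Derivation.add_apply, ih]

theorem hamDer_apply (f g : Bn n) : hamDer f g =
    ∑ i : Fin n, (pderiv (Sum.inl i) f * pderiv (Sum.inr i) g -
      pderiv (Sum.inr i) f * pderiv (Sum.inl i) g) := by
  simp [hamDer, der_sum_apply]

/-- The bracket as a bilinear map. -/
def stdBr : Bn n →ₗ[ℂ] Bn n →ₗ[ℂ] Bn n :=
  LinearMap.mk₂ ℂ (fun f g => hamDer f g)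
    (fun f f' g => by
      simp only [hamDer_apply, map_add, ← Finset.sum_add_distrib]
      exact Finset.sum_congr rfl fun i _ => by ring)
    (fun c f g => by
      simp only [hamDer_apply, Derivation.map_smul, Finset.smul_sum, smul_sub, smul_mul_assoc])
    (fun f g g' => map_add _ _ _)
    (fun c f g => Derivation.map_smul _ _ _)

theorem stdBr_apply (f g : Bn n) : stdBr f g = hamDer f g := rfl

theorem pderiv_comm' (a b : Fin n ⊕ Fin n) (f : Bn n) :
    pderiv a (pderiv b f) = pderiv b (pderiv a f) := by
  have : (⁅(pderiv a : Derivation ℂ (Bn n) (Bn n)), (pderiv b : Derivation ℂ (Bn n) (Bn n))⁆) = 0 := by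
    refine MvPolynomial.derivation_ext fun c => ?_
    classical
    simp only [Derivation.commutator_apply, pderiv_X, Pi.single_apply, Derivation.zero_apply]
    split_ifs <;> simp
  have h := congrArg (fun D : Derivation ℂ (Bn n) (Bn n) => D f) this
  simpa [Derivation.commutator_apply, sub_eq_zero] using h

theorem pderiv_hamDer (a : Fin n ⊕ Fin n) (f g : Bn n) :
    pderiv a (hamDer f g) = hamDer (pderiv a f) g + hamDer f (pderiv a g) := by
  simp only [hamDer_apply, map_sum, map_sub, Derivation.leibniz, smul_eq_mul,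
    ← Finset.sum_add_distrib, pderiv_comm' a]
  exact Finset.sum_congr rfl fun i _ => by ring

theorem hamDer_X_inl (f : Bn n) (i : Fin n) :
    hamDer f (X (Sum.inl i)) = - pderiv (Sum.inr i) f := by
  classical
  simp [hamDer_apply, pderiv_X, Pi.single_apply]

theorem hamDer_X_inr (f : Bn n) (i : Fin n) :
    hamDer f (X (Sum.inr i)) = pderiv (Sum.inl i) f := by
  classical
  simp [hamDer_apply, pderiv_X, Pi.single_apply]

theorem hamDer_skew (f g : Bn n) : hamDer f g = - hamDer g f := by
  simp only [hamDer_apply, ← Finset.sum_neg_distrib]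
  exact Finset.sum_congr rfl fun i _ => by ring

theorem hamDer_bracket (f g : Bn n) : hamDer (hamDer f g) = ⁅hamDer f, hamDer g⁆ := by
  refine MvPolynomial.derivation_ext fun c => ?_
  rw [Derivation.commutator_apply]
  rcases c with i | i
  · simp only [hamDer_X_inl, pderiv_hamDer, map_neg]
    rw [hamDer_skew g (pderiv (Sum.inr i) f)]
    ring
  · simp only [hamDer_X_inr, pderiv_hamDer]
    rw [hamDer_skew g (pderiv (Sum.inl i) f)]
    ring

/-- The standard Poisson bracket on `ℂ^{2n}`. -/
def stdPoisson (n : ℕ) : Poisson (Bn n) where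
  br := stdBr
  alt f := by
    rw [stdBr_apply, hamDer_apply]
    exact Finset.sum_eq_zero fun i _ => by ring
  leibniz a b c := by
    simp only [stdBr_apply, Derivation.leibniz, smul_eq_mul]
  jacobi a b c := by
    simp only [stdBr_apply]
    rw [hamDer_skew c (hamDer a b), hamDer_bracket, Derivation.commutator_apply,
      hamDer_skew c a, map_neg]
    ring

theorem stdPoisson_br (f g : Bn n) : (stdPoisson n).br f g = hamDer f g := rfl

/-- The partial derivatives form a basis of the vector fields. -/
def derEquiv : (Fin n ⊕ Fin n → Bn n) ≃ₗ[Bn n] Derivation ℂ (Bn n) (Bn n) where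
  toFun v := mkDerivation ℂ v
  map_add' u v := MvPolynomial.derivation_ext fun i => by simp
  map_smul' c v := MvPolynomial.derivation_ext fun i => by simp
  invFun D i := D (X i)
  left_inv v := funext fun i => by simp
  right_inv D := MvPolynomial.derivation_ext fun i => by simp

/-- The symplectic twist of coordinates. -/
def twist : (Fin n ⊕ Fin n → Bn n) ≃ₗ[Bn n] (Fin n ⊕ Fin n → Bn n) where
  toFun v := Sum.elim (fun i => - v (Sum.inr i)) (fun i => v (Sum.inl i))
  map_add' u v := funext fun c => by rcases c with i | i <;> simp [add_comm]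
  map_smul' c v := funext fun c => by rcases c with i | i <;> simp
  invFun v := Sum.elim (fun i => v (Sum.inr i)) (fun i => - v (Sum.inl i))
  left_inv v := funext fun c => by rcases c with i | i <;> simp
  right_inv v := funext fun c => by rcases c with i | i <;> simp

theorem stdPoisson_isSymplectic : IsSymplectic (stdPoisson n) := by
  refine ⟨⟨inferInstance, inferInstance⟩, ⟨inferInstance, inferInstance⟩,
    (KaehlerDifferential.mvPolynomialBasis ℂ (Fin n ⊕ Fin n)).equivFun ≪≫ₗ twist ≪≫ₗ derEquiv,
    fun f g => ?_⟩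
  have : ((KaehlerDifferential.mvPolynomialBasis ℂ (Fin n ⊕ Fin n)).equivFun ≪≫ₗ twist ≪≫ₗ derEquiv)
      (KaehlerDifferential.D ℂ (Bn n) f) = hamDer f := by
    refine MvPolynomial.derivation_ext fun c => ?_
    rcases c with i | i
    · simp [derEquiv, twist, hamDer_X_inl]
    · simp [derEquiv, twist, hamDer_X_inr]
  rw [this, stdPoisson_br]

theorem dim_Bn : ringKrullDim (Bn n) = (2 * n : ℕ) := by
  rw [MvPolynomial.ringKrullDim_of_isNoetherianRing, ringKrullDim_eq_zero_of_field]
  simp [two_mul]

end Pool.Agent.Lib.MP_fc9dee_ag
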