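import Pool.Agent.Lib.MP_fc9dee_ag.Defs

/-! Singular cohomology of the complex points of affine space vanishes in positive degree. -/

open CategoryTheory CategoryTheory.Limits AlgebraicTopology

noncomputable section

namespace Pool.Agent.Lib.MP_fc9dee_ag

/-- The singular chain complex with complex coefficients. -/
abbrev chainFun : TopCat.{0} ⥤ ChainComplex (ModuleCat.{0} ℂ) ℕ :=
  (singularChainComplexFunctor (ModuleCat.{0} ℂ)).obj (ModuleCat.of ℂ ℂ)

theorem chain_exactAt (Y : TopCat.{0}) (y : Y) (H : TopCat.Homotopy (𝟙 Y) (TopCat.const y))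
    (k : ℕ) (hk : k ≠ 0) : (chainFun.obj Y).ExactAt k := by
  rw [HomologicalComplex.exactAt_iff_isZero_homology, IsZero.iff_id_eq_zero]
  have h1 := H.congr_homologyMap_singularChainComplexFunctor (ModuleCat.of ℂ ℂ) k
  have h2 : (TopCat.const y : Y ⟶ Y) =
      (TopCat.const PUnit.unit : Y ⟶ TopCat.of PUnit) ≫ TopCat.const y := rfl
  have h3 : IsZero ((chainFun.obj (TopCat.of PUnit)).homology k) :=
    (singularChainComplexFunctor_exactAt_of_totallyDisconnectedSpace (ModuleCat.{0} ℂ) k
      (ModuleCat.of ℂ ℂ) (TopCat.of PUnit) hk).isZero_homology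
  rw [CategoryTheory.Functor.map_id, HomologicalComplex.homologyMap_id, h2,
    CategoryTheory.Functor.map_comp, HomologicalComplex.homologyMap_comp,
    h3.eq_of_src (HomologicalComplex.homologyMap _ k) 0, comp_zero] at h1
  exact h1

theorem dual_exactAt (K : ChainComplex (ModuleCat.{0} ℂ) ℕ) (k : ℕ) (hK : K.ExactAt (k + 1)) :
    (K.linearYonedaObj ℂ (ModuleCat.of ℂ ℂ)).ExactAt (k + 1) := by
  rw [HomologicalComplex.exactAt_iff' _ (k + 2) (k + 1) k (by simp) (by simp),
    ShortComplex.moduleCat_exact_iff] at hK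
  rw [HomologicalComplex.exactAt_iff' _ k (k + 1) (k + 2) (by simp) (by simp),
    ShortComplex.moduleCat_exact_iff]
  intro φ hφ
  change K.X (k + 1) ⟶ ModuleCat.of ℂ ℂ at φ
  change K.d (k + 2) (k + 1) ≫ φ = 0 at hφ
  have hmem : φ.hom ∈ (LinearMap.ker (K.d (k + 1) k).hom).dualAnnihilator := by
    rw [Submodule.mem_dualAnnihilator]
    intro x hx
    obtain ⟨y, hy⟩ := hK x hx
    have := congrArg (fun t => t.hom y) hφ
    rw [← hy]
    exact this
  rw [← LinearMap.range_dualMap_eq_dualAnnihilator_ker] at hmem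
  obtain ⟨ψ, hψ⟩ := hmem
  refine ⟨(ModuleCat.ofHom ψ : K.X k ⟶ ModuleCat.of ℂ ℂ), ?_⟩
  change K.d (k + 1) k ≫ ModuleCat.ofHom ψ = φ
  exact ModuleCat.hom_ext hψ

theorem isZero_cohomology (Y : TopCat.{0}) (y : Y) (H : TopCat.Homotopy (𝟙 Y) (TopCat.const y))
    (k : ℕ) (hk : k ≠ 0) : IsZero (singularCohomology Y k) := by
  obtain ⟨j, rfl⟩ := Nat.exists_eq_succ_of_ne_zero hk
  exact (dual_exactAt _ j (chain_exactAt Y y H _ hk)).isZero_homology

variable {σ : Type}

/-- Scaling a complex point of affine space. -/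
def scalePt (t : ℂ) (χ : MvPolynomial σ ℂ →ₐ[ℂ] ℂ) : MvPolynomial σ ℂ →ₐ[ℂ] ℂ :=
  MvPolynomial.aeval fun i => t * χ (MvPolynomial.X i)

theorem continuous_ev (b : MvPolynomial σ ℂ) :
    Continuous fun χ : points (MvPolynomial σ ℂ) =>
      (show MvPolynomial σ ℂ →ₐ[ℂ] ℂ from χ) b :=
  (continuous_apply b).comp continuous_induced_dom

/-- The contraction of affine space. -/
def contraction : TopCat.Homotopy (𝟙 (points (MvPolynomial σ ℂ)))
    (TopCat.const (show points (MvPolynomial σ ℂ) from MvPolynomial.aeval fun _ => (0 : ℂ))) where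
  toFun p := scalePt (1 - ((p.1 : ℝ) : ℂ)) p.2
  continuous_toFun := by
    refine continuous_induced_rng.2 (continuous_pi fun b => ?_)
    have h1 : Continuous fun p : unitInterval × points (MvPolynomial σ ℂ) =>
        fun i : σ => (1 - ((p.1 : ℝ) : ℂ)) *
          (show MvPolynomial σ ℂ →ₐ[ℂ] ℂ from p.2) (MvPolynomial.X i) :=
      continuous_pi fun i => (continuous_const.sub (Complex.continuous_ofReal.comp
        (continuous_subtype_val.comp continuous_fst))).mul
          ((continuous_ev (MvPolynomial.X i)).comp continuous_snd)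
    exact (MvPolynomial.continuous_eval b).comp h1
  map_zero_left χ := by
    refine MvPolynomial.algHom_ext fun i => ?_
    simp [scalePt]
  map_one_left χ := by
    refine MvPolynomial.algHom_ext fun i => ?_
    simp [scalePt]

theorem rank_cohomology_affine (k : ℕ) (hk : k ≠ 0) :
    Module.rank ℂ (singularCohomology (points (MvPolynomial σ ℂ)) k) = 0 := by
  have := ModuleCat.subsingleton_of_isZero (isZero_cohomology _ _ (contraction (σ := σ)) k hk)
  exact rank_subsingleton' ℂ _

end Pool.Agent.Lib.MP_fc9dee_ag
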